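import Mathlib
import Pool.Agent.W437.CY.RelG

/-!
# Hodge classes on products with Calabi-Yau varieties

Let `V i` be finitely many polarized simple rational Hodge structures of odd weights `k i` whose
part of type `(k, 0)` is spanned by one vector of periods, for instance the transcendental parts of
the third cohomology groups of Calabi-Yau threefolds, and assume that at least half of the
periods of each `V i` are algebraically independent. Let `M` be any self-dual rational Hodge
structure, of any weights, such that `|p - q| ≤ d < k i` on `M`, for instance the cohomology of
curves, surfaces and abelian varieties. Let `A` be a system of rational tensors which is closed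
under products and permutations, for instance the motivated classes of André. If `A` contains
the Hodge classes of the tensor powers of `M`, the classes dual to the polarizations of the `V i`
and the Hodge classes of the `V i ⊗ V j`, `i ≠ j`, then it contains all Hodge classes of the
tensor powers of `M ⊕ ⨁ V i`. (All definitions are in the file `Pool/Agent/W437/CY/Defs.lean`.)
-/

namespace Pool.Agent.Results.MP_b8862a_ag.CalabiYauProducts

open Pool.Agent.W437.CY

/-- Let `M` be a self-dual rational Hodge structure of level at most `d`, and let `V i` be
polarized simple rational Hodge structures of odd weights `k i > d`, with one-dimensional part of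
type `(k i, 0)`, such that at least half of the periods of `V i` are algebraically independent.
Then every system `A` of rational tensors with the formal properties `IsSystem` contains all Hodge
classes of the tensor powers of `M ⊕ ⨁ V i`. -/
theorem result {ι : Type} [Fintype ι] [DecidableEq ι] {k N : ι → ℕ} {d l : ℕ} (M : LowHS d l)
    (V : ∀ i, PolHS (k i) (N i)) (hodd : ∀ i, Odd (k i)) (hlevel : ∀ i, d < k i)
    (hsimple : ∀ i, (V i).IsSimple) (hindep : ∀ i, (V i).HalfIndep)
    (A : ∀ κ : Type, Submodule ℚ ((κ → Bas l N) → ℚ)) (hA : IsSystem M V A) {κ : Type}
    [Fintype κ] (c : (κ → Bas l N) → ℚ) (hc : IsHodgeClass M V c) : c ∈ A κ :=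
  main M V hodd hlevel hsimple hindep hA c hc

end Pool.Agent.Results.MP_b8862a_ag.CalabiYauProducts
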