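import Mathlib
import Pool.Agent.W527.FrobMild
import Pool.Agent.H204R3.GP.MTDefs
import Pool.Agent.H204R3.GP.MT

/-!
# The Mumford-Tate conjecture from one mild Frobenius polynomial

Let `A` be an abelian variety over a finitely generated subfield of the complex numbers, of any
dimension and with arbitrary endomorphisms.  Suppose that for ONE closed point `v` of good reduction,
with residue field of `p ^ a` elements, the characteristic polynomial of the Frobenius element is the
product of the minimal polynomials of Weil numbers `π i` which generate CM fields `F i`, and that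
these Weil numbers are `Mild` and `Separated`.

`Mild` is a condition on the families of CM subfields `T i` of the fields `F i`, `i ∈ S ≠ ∅`: some
prime number divides one of the discriminants of the `T i`, but its third power does not divide their
product; or some automorphism of `ℂ` moves at least one and at most four embeddings of the `T i`; or
it acts on the pairs of conjugate embeddings as one cycle of odd prime length; if the norms of the
`π i` to the `T i` have only two slopes, `third power` and `four` may be replaced by `fourth power`
and `six`.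

`Separated`: different embeddings of CM subfields `T i`, `T i'` of the `F i` (`T i = T i'` if
`i = i'`) never map positive powers of the norms of the `π i`, normalised to absolute value one, to the
same complex number.  It holds if the `F i` have only totally real proper subfields and are pairwise
non-isomorphic and no `π i` is supersingular.

Then, for all primes `ℓ` not divisible by `v`, all Tate classes in the tensor powers of `H^1` are
linear combinations of Hodge classes, and even of products of Hodge classes of degree two.  Together
with the theorem of Deligne (Hodge classes are Tate classes) this is the equality of the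
Mumford-Tate group (over `ℚ_ℓ`) and of the connected component of the `ℓ`-adic monodromy group: both
are reductive (Faltings), so that they are determined by their invariants in the spaces
`(H^1)^{⊗ 2 m}(m)`.  So the Mumford-Tate conjecture holds for `A` and for all motives in the
tannakian category generated by `H^1(A)`.  Moreover, all these classes are algebraic (Lefschetz), so
that the motivic Galois group is the same group.

For example: the Frobenius polynomial at one place is irreducible, the reduction is not supersingular
over the algebraic closure, the CM field defined by the polynomial has no proper CM subfield, and its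
discriminant is divisible by some prime number only once or twice (or three times, if the reduction
is ordinary).  There is no condition on the dimension, on the Galois group and on the slopes.

In the Lean statement `W` is `H_1(A, ℚ)`, `T` the tangent space at the origin and `per : W → T` the
inclusion, `ω₀` is the form given by a polarization; `V` is the rational Tate module with the
comparison map `comp : W → V`, the action `ρ` of the Galois group and the Weil pairing `ω`; `χ` is
the cyclotomic character and `γ` the Frobenius element at `v`.  The hypotheses `hss` and `hF` are the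
theorems of Faltings.
-/

namespace Pool.Agent.Results.MP_b8862a_ag.MildFrobenius

open NumberField Module Pool.Agent.H204R3.GP Pool.Agent.H204R3.SP IntermediateField
  Pool.Agent.W527.Norm Pool.Agent.H977R3.WN

theorem result (ℓ p : ℕ) [Fact ℓ.Prime] [Fact p.Prime] (a : ℕ) (ha : 0 < a)
    {ι : Type} [Fintype ι] (F : ι → Type) [∀ i, Field (F i)] [∀ i, NumberField (F i)]
    [∀ i, IsCMField (F i)] (π : ∀ i, F i) (hint : ∀ i, IsIntegral ℤ (π i))
    (hgen : ∀ i, ℚ⟮π i⟯ = ⊤)
    (hweil : ∀ i, π i * IsCMField.complexConj (F i) (π i) = (p : F i) ^ a)
    (hmild : Mild p (fun _ => a) π)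
    (hsep : Separated p (fun _ => a) π ∨
      ((∀ i, ∀ T : IntermediateField ℚ (F i), T ≠ ⊤ → IsTotallyReal T) ∧
        (∀ i i', i ≠ i' → IsEmpty (F i ≃+* F i')) ∧
        ∀ i, ∀ s : ℕ, 0 < s → (π i ^ 2 / (p : F i) ^ a) ^ s ≠ 1))
    -- the complex torus `A(ℂ)` with a polarization
    {W T : Type} [AddCommGroup W] [Module ℚ W] [AddCommGroup T] [Module ℂ T] (per : W →+ T)
    (ω₀ : W →ₗ[ℚ] W →ₗ[ℚ] ℚ) (hω₀ : IsHodgeBilinear per ω₀)
    -- the Tate module
    {V : Type} [AddCommGroup V] [Module ℚ_[ℓ] V] [FiniteDimensional ℚ_[ℓ] V] (comp : W →+ V)
    {Γ : Type} [Group Γ] (ρ : Representation ℚ_[ℓ] Γ V) (χ : Γ →* ℚ_[ℓ])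
    (ω : V →ₗ[ℚ_[ℓ]] V →ₗ[ℚ_[ℓ]] ℚ_[ℓ]) (halt : ∀ v, ω v v = 0)
    (hnondeg : ∀ u, (∀ v, ω v u = 0) → u = 0)
    (hω : ∀ s u v, ω (ρ s u) (ρ s v) = χ s * ω u v)
    (hωω : ∀ x y, ω (comp x) (comp y) = ((ω₀ x y : ℚ) : ℚ_[ℓ]))
    (hss : FiniteIndexSemisimple ρ) (hF : FaltingsEnd per comp ρ)
    (γ : Γ) (hχ : χ γ = (p : ℚ_[ℓ]) ^ a)
    (hγ : (ρ γ).charpoly = ∏ i, (minpoly ℚ (π i)).map (algebraMap ℚ ℚ_[ℓ])) :
    MumfordTateStrong per comp ρ χ := by
  have hss' : ∀ Δ : Subgroup Γ, Δ.FiniteIndex → SemiUnder (ρ '' (Δ : Set Γ)) := by
    intro Δ hΔ U hU
    obtain ⟨U', h1, h2⟩ := hss Δ hΔ U (fun s hs u hu => hU _ ⟨s, hs, rfl⟩ u hu)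
    refine ⟨U', ?_, h2⟩
    rintro _ ⟨s, hs, rfl⟩ u hu
    exact h1 s hs u hu
  have hnd' : ∀ u, (∀ v, ω u v = 0) → u = 0 := by
    intro u hu
    apply hnondeg
    intro v
    have h1 := halt (u + v)
    simp only [map_add, LinearMap.add_apply, halt, hu, zero_add, add_zero] at h1
    exact h1
  have hw : ∀ i, ∀ φ : F i →+* ℂ, ‖φ (π i)‖ ^ 2 = (p : ℝ) ^ a := by
    intro i φ
    have h1 := congrArg (fun x => ‖φ x‖) (hweil i)
    simp only [map_mul, map_pow, map_natCast, norm_mul, norm_pow, Complex.norm_natCast] at h1
    rw [IsCMField.complexEmbedding_complexConj, Complex.norm_conj] at h1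
    rw [sq]
    exact h1
  have hsep' : Separated p (fun _ => a) π := by
    rcases hsep with hsep | ⟨h1, h2, h3⟩
    · exact hsep
    · exact Pool.Agent.W527.norm_separated_of_real hint hw h1 h2 h3
  have hπ : ∀ i, π i ≠ 0 := fun i => Pool.Agent.W527.ne_zero_of_weil (p := p) (m := a) (hw i)
  choose D u hD hslopes hu using fun i => Pool.Agent.W527.exists_hasSlopes (p := p) ha (hπ i)
  exact mumfordTate_of per comp ρ χ ω hnd' hω ω₀ hω₀ hωω hF fun m φ hφ => tate_of_free ha hgen
    hweil (N := fun i => a * D i) (fun i => Nat.mul_pos ha (hD i)) (u := u) hslopes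
    (fun L _ _ j h jp => Pool.Agent.W527.free_of_mild (m := fun _ => a) hint hw hmild hsep'
      (κ := fun i => ((D i : ℚ))⁻¹) (fun i => by
        have := hD i
        positivity) hu j h jp) ρ χ ω halt hnondeg hω hss' γ hχ hγ φ hφ

end Pool.Agent.Results.MP_b8862a_ag.MildFrobenius
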