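import Mathlib
import Pool.Agent.H204R3.GP.Defs
import Pool.Agent.H204R3.GP.MTDefs
import Pool.Agent.H204R3.GP.MT
import Pool.Agent.W522.U.Defs
import Pool.Agent.W528.Tor.Defs
import Pool.Agent.W528.Odd.Final2
import Pool.Agent.W16.OM.Main

/-!
# The Mumford-Tate conjecture for abelian varieties with places of odd toric rank

Let `A` be an abelian variety over a finitely generated subfield of the complex numbers, and let `Ω`
be an algebraic closure of `ℚ_ℓ`.  The *strongly irreducible* subspaces `U` of `Ω ⊗ V`, where `V` is
the rational Tate module (predicate `SI`), are the minimal nonzero subspaces that are stable under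
a subgroup of finite index of the Galois group.  If `End(A) = ℤ` there is just one, `Ω ⊗ V`; if
`End(A) ⊗ ℚ` is a totally real field `F`, there is one for each embedding of `F` into `Ω`.
A *weak Hodge element* is an operator `x` on `Ω ⊗ V` with `x ^ 2 = 1 / 4` that kills all Tate forms
(`lieT`), for example `p - 1 / 2` where `p` is the projection given by a weak Hodge cocharacter in
the sense of Pink.  Suppose that

* (theorem of Pink, 1998: the connected monodromy group is generated by the weak Hodge
  cocharacters) the operators that commute with all weak Hodge elements commute with a subgroup of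
  finite index of the Galois group;
* (toric rank) for every strongly irreducible `U` of dimension at least two there is an element `γ`
  of the Galois group (for example in the inertia group of a place of semistable reduction) with
  `(γ - 1) ^ 2 = 0` such that `γ - 1` has rank one on `U`, or `U` is self-dual with an alternating
  pairing and the rank of `γ - 1` on `U` is odd or two;
* the one-dimensional `U` (which come from the factors of CM type) are not self-dual;
* (twists) if `U` has dimension at least two and is not self-dual, then every twist of `U` by a
  character that occurs in `Ω ⊗ V` is potentially isomorphic to `U`;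
* (determinants) the characters `det(U i) ^ 2 / χ ^ (dim (U i))` of the strongly irreducible
  subspaces `U i` which are pairwise neither isomorphic nor dual, and not self-dual, are
  multiplicatively independent modulo characters of finite order.

(If `A` is a product of abelian varieties of types I and II, only the first two conditions are
left; if moreover `End(A) = ℤ`, the second one asks for ONE place of semistable reduction whose
toric rank is odd or two.)  Then all Tate classes in the tensor powers of `H^1` are linear
combinations of Hodge classes, and even of products of Hodge classes of degree two.  Together with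
the theorems of Deligne and André (Hodge classes on abelian varieties are motivated, hence Tate
classes) this is the equality of the Mumford-Tate group, of the motivic Galois group and of the
connected component of the `ℓ`-adic monodromy group of `h^1(A)`, and of all the motives in the
tannakian category generated by it: these groups are reductive, so that they are determined by
their invariants.

In the Lean statement `W` is `H_1(A, ℚ)`, `T` the tangent space at the origin and `per : W → T` the
inclusion, `ω₀` is the form given by a polarization; `V` is the rational Tate module with the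
comparison map `comp : W → V`, the action `ρ` of the Galois group and the Weil pairing `ω`; `χ` is
the cyclotomic character.  The hypotheses `hss` and `hF` are the theorems of Faltings, `hPink` is
the theorem of Pink.

The Lie algebra theorem behind the odd rank is helper528's (`Pool.Agent.W528.Odd`, written for
`MP_90d181_ag.OddToricRank`, the Tate side): a Lie algebra of symplectic operators in which the
elements `X` with `X ^ 2 = 1 / 4` act irreducibly, and which contains a square-zero element of odd
rank, is the symplectic Lie algebra.
-/

namespace Pool.Agent.Results.MP_b8862a_ag.OddToricRankMT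

open Module TensorProduct Pool.Agent.H204R3.GP Pool.Agent.H204R3.SP Pool.Agent.W522.U
open Pool.Agent.W528.Odd (WeakHodgeGenerate)
open Pool.Agent.W16.OM

theorem result (ℓ : ℕ) [Fact ℓ.Prime]
    -- the complex torus `A(ℂ)` with a polarization
    {W T : Type} [AddCommGroup W] [Module ℚ W] [AddCommGroup T] [Module ℂ T] (per : W →+ T)
    (ω₀ : W →ₗ[ℚ] W →ₗ[ℚ] ℚ) (hω₀ : IsHodgeBilinear per ω₀)
    -- the Tate module
    {V : Type} [AddCommGroup V] [Module ℚ_[ℓ] V] [FiniteDimensional ℚ_[ℓ] V] (comp : W →+ V)
    {Γ : Type} [Group Γ] (ρ : Representation ℚ_[ℓ] Γ V) (χ : Γ →* ℚ_[ℓ])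
    (ω : V →ₗ[ℚ_[ℓ]] V →ₗ[ℚ_[ℓ]] ℚ_[ℓ]) (halt : ∀ v, ω v v = 0)
    (hnondeg : ∀ u, (∀ v, ω v u = 0) → u = 0)
    (hω : ∀ s u v, ω (ρ s u) (ρ s v) = χ s * ω u v)
    (hωω : ∀ x y, ω (comp x) (comp y) = ((ω₀ x y : ℚ) : ℚ_[ℓ]))
    (hss : FiniteIndexSemisimple ρ) (hF : FaltingsEnd per comp ρ)
    (Ω : Type) [Field Ω] [Algebra ℚ_[ℓ] Ω] [IsAlgClosure ℚ_[ℓ] Ω]
    (R : Representation Ω Γ (Ω ⊗[ℚ_[ℓ]] V)) (hR : ∀ s, R s = (ρ s).baseChange Ω)
    (χ' : Γ →* Ω) (hχ' : ∀ s, χ' s = algebraMap ℚ_[ℓ] Ω (χ s))
    (hPink : WeakHodgeGenerate R χ') (hunip : HasUnipotents R χ')
    (hone : LinesNotSelfDual R χ') (htwist : TwistFree R χ') (hdet : DetIndependent R χ') :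
    MumfordTateStrong per comp ρ χ := by
  have _ : IsAlgClosed Ω := IsAlgClosure.isAlgClosed ℚ_[ℓ]
  have _ : Algebra.IsAlgebraic ℚ_[ℓ] Ω := IsAlgClosure.isAlgebraic
  have _ : CharZero Ω := charZero_of_injective_algebraMap (algebraMap ℚ_[ℓ] Ω).injective
  have hR' : R = bcr ρ Ω := by
    ext1 s
    exact hR s
  have hχ'' : χ' = bcc χ Ω := by
    ext1 s
    exact hχ' s
  subst hR' hχ''
  exact mumfordTate_of per comp ρ χ ω (left_nondeg ω halt hnondeg) hω ω₀ hω₀ hωω hF
    fun m φ hφ => tate_descent_any (Ω := Ω) (Module.finBasis ℚ_[ℓ] V) ρ χ
      (fun φ' hφ' => main_all (bcb Ω ω)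
        (bcb_nondeg_left ω hnondeg (left_nondeg ω halt hnondeg))
        (fun g u v => bcb_inv ρ χ ω hω g u v) hPink hunip hone htwist hdet (hasProj_bcr ρ Ω hss)
        φ' hφ')
      φ hφ

end Pool.Agent.Results.MP_b8862a_ag.OddToricRankMT
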