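import Mathlib
import Pool.Agent.H204R3.GP.MTDefs
import Pool.Agent.W516.MT.Defs
import Pool.Agent.W516.MT.Final

/-!
# The Mumford-Tate conjecture for an abelian variety is decided by one Tate class of degree four

Let `A` be any abelian variety over a number field `K` embedded in the complex numbers (no condition
on the dimension, on the endomorphisms or on the Hodge structure, factors of type IV are allowed)
and `ℓ` a prime number.  There is a Tate class `Θ` in `(H^1)^{⊗ 4}(2)`, so a Tate class of
codimension two on `A ^ 4`, with the following properties.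

(i) `Θ` and the endomorphisms of `A` determine the Lie algebra of the `ℓ`-adic monodromy group, up
to its centre: every infinitesimal isometry `Z` of the rational Tate module which commutes with
`End(A)` and annihilates `Θ` is the sum of an element of the centre of `End(A) ⊗ ℚ_ℓ` and of an
endomorphism that annihilates all Tate classes in all tensor powers of `H^1`.

(ii) If `Θ` is a linear combination of Hodge classes, then all Tate classes in all the spaces
`(H^1)^{⊗ 2 m}(m)` are linear combinations of Hodge classes.  Together with the theorem of Deligne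
(Hodge classes are Tate classes) this is the equality of the Mumford-Tate group over `ℚ_ℓ` and of
the connected component of the `ℓ`-adic monodromy group (both are reductive and so determined by
these classes).  So the Mumford-Tate conjecture for `A`, and for all motives in the tannakian
category generated by `H^1(A)`, is the statement that the single class `Θ` is a linear combination
of Hodge classes.

The class `Θ` is the Casimir form of the Lie algebra of the monodromy group for its trace form.  The
proof in Lean contains the following steps: the Lie algebra `𝔤` of the endomorphisms annihilating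
all Tate classes acts semisimply; its commutant is `End(A) ⊗ ℚ_ℓ` (this uses the `ℓ`-adic
logarithms of the elements of the Galois group, as limits of `(T ^ (ℓ ^ n) - 1) / ℓ ^ n`); the trace
form on `𝔤` is nondegenerate (Cartan's criterion and the positivity of the Rosati involution on the
centre); the endomorphisms that annihilate the Casimir form normalize `𝔤`.

In the Lean statement `W` is `H_1(A, ℚ)`, `T` the tangent space at the origin and `per : W → T` the
inclusion, `ω₀` is the Riemann form of a polarization; `ℚ_ℓ ⊗ W` is the rational Tate module with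
the action `ρ` of the compact group `Γ = Gal(K̄ / K)` and the Weil pairing `ω`; `χ` is the cyclotomic
character.  The hypotheses `hss`, `hF` are the theorems of Faltings, `hD` is the theorem of Deligne
and `hC` the theorem on centres (the Mumford-Tate conjecture is true for the centres; Vasiu,
Ullmo-Yafaev).
-/

namespace Pool.Agent.Results.MP_b8862a_ag.OneQuarticTateClass

open TensorProduct Pool.Agent.H204R3.GP Pool.Agent.W516.MTD

/-- One Tate class of degree four decides the Mumford-Tate conjecture for an abelian variety. -/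
theorem result (ℓ : ℕ) [Fact ℓ.Prime]
    -- the complex torus `A(ℂ)` with a polarization
    {W T : Type} [AddCommGroup W] [Module ℚ W] [FiniteDimensional ℚ W] [AddCommGroup T]
    [Module ℂ T] (per : W →+ T) (hper : IsRationalStructure per)
    (ω₀ : W →ₗ[ℚ] W →ₗ[ℚ] ℚ) (hR : IsRiemannForm per ω₀)
    -- the Galois group, its continuous action on the Tate module and the Weil pairing
    {Γ : Type} [Group Γ] [TopologicalSpace Γ] [IsTopologicalGroup Γ] [CompactSpace Γ]
    (ρ : Representation ℚ_[ℓ] Γ (ℚ_[ℓ] ⊗[ℚ] W)) (χ : Γ →* ℚ_[ℓ])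
    (hcont : ∀ (f : ℚ_[ℓ] ⊗[ℚ] W →ₗ[ℚ_[ℓ]] ℚ_[ℓ]) (v : ℚ_[ℓ] ⊗[ℚ] W),
      Continuous fun s => f (ρ s v))
    (hχ : Continuous χ)
    (ω : ℚ_[ℓ] ⊗[ℚ] W →ₗ[ℚ_[ℓ]] ℚ_[ℓ] ⊗[ℚ] W →ₗ[ℚ_[ℓ]] ℚ_[ℓ])
    (hωω : ∀ u v : W, ω ((1 : ℚ_[ℓ]) ⊗ₜ[ℚ] u) ((1 : ℚ_[ℓ]) ⊗ₜ[ℚ] v) = ((ω₀ u v : ℚ) : ℚ_[ℓ]))
    (hωρ : ∀ s u v, ω (ρ s u) (ρ s v) = χ s * ω u v)
    -- the theorems of Faltings and Deligne and the theorem on centres
    (hss : Semisimple ρ) (hF : Faltings per ρ) (hD : Deligne per ρ χ) (hC : Centres per ρ χ) :
    ∃ Θ : MultilinearMap ℚ_[ℓ] (fun _ : Fin 2 × Fin 2 => ℚ_[ℓ] ⊗[ℚ] W) ℚ_[ℓ],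
      IsTateTensor ρ χ 2 Θ ∧
      (∀ Z : Module.End ℚ_[ℓ] (ℚ_[ℓ] ⊗[ℚ] W), (∀ u v, ω (Z u) v + ω u (Z v) = 0) →
        (∀ P ∈ endos ℚ_[ℓ] per, Z * P = P * Z) → Annihilates Z Θ →
        ∃ C ∈ endos ℚ_[ℓ] per, (∀ P ∈ endos ℚ_[ℓ] per, C * P = P * C) ∧ ∀ (m : ℕ)
          (φ : MultilinearMap ℚ_[ℓ] (fun _ : Fin m × Fin 2 => ℚ_[ℓ] ⊗[ℚ] W) ℚ_[ℓ]),
          IsTateTensor ρ χ m φ → Annihilates (Z - C) φ) ∧
      (IsHodgeCombination per Θ → ∀ (m : ℕ)
        (φ : MultilinearMap ℚ_[ℓ] (fun _ : Fin m × Fin 2 => ℚ_[ℓ] ⊗[ℚ] W) ℚ_[ℓ]),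
        IsTateTensor ρ χ m φ → IsHodgeCombination per φ) :=
  Pool.Agent.W516.MTF.quartic ℓ per ω₀ hper hR ρ χ hcont hχ ω hωω hωρ hss hF hD hC

end Pool.Agent.Results.MP_b8862a_ag.OneQuarticTateClass
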