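import Mathlib
import Pool.Agent.H204R3.GP.Defs
import Pool.Agent.H204R3.GP.MTDefs
import Pool.Agent.H204R3.GP.MT
import Pool.Agent.W516.FourDefs
import Pool.Agent.W516.FourMain
import Pool.Agent.W516.FourMT

/-!
# The Mumford-Tate conjecture and relations of length four between Frobenius eigenvalues

Let `A` be an abelian variety over a finitely generated subfield `K` of the complex numbers, whose
complex endomorphisms are all symmetric with respect to the Rosati involution of a polarization: `A`
is isogenous to a product of simple abelian varieties of type I, pairwise not isogenous, whose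
endomorphism algebras are (any) totally real fields.  Suppose that `A` has good reduction at ONE
closed point `v` (of a model of `K`, with residue field of `q` elements), such that

* the characteristic polynomial `P` of the Frobenius element at `v` has no multiple roots;
* for complex roots `a`, `b`, `c`, `d` of `P` with `a b c d = ζ q ^ 2`, `ζ` a root of unity, the four
  roots fall into two pairs with product `q`.  (For the reduction of `A` at `v` this says that the
  Tate classes of codimension two on its powers are generated by divisor classes and that its
  endomorphism algebra over the algebraic closure is commutative.)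

Then, for all primes `ℓ` not divisible by `v`, all Tate classes in the tensor powers of `H^1` (and
so in the cohomology of all powers of `A`) are linear combinations of Hodge classes, and even of
products of Hodge classes of degree two.  Together with the theorem of Deligne (Hodge classes are
Tate classes) this is the equality of the Mumford-Tate group (over `ℚ_ℓ`) and of the connected
component of the `ℓ`-adic monodromy group: both are reductive (Faltings), so that they are determined
by their invariants in the spaces `(H^1)^{⊗ 2 m}(m)`.  So the Mumford-Tate conjecture holds for `A`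
and for all motives in the tannakian category generated by `H^1(A)`.  Moreover, all these classes are
algebraic (Lefschetz), so that the motivic Galois group is the same group, and the Hodge and the Tate
conjecture hold for all powers of `A`.

There are no conditions on the dimension of `A` (which may be in the exceptional set of Pink's
theorem), on slopes or on Galois groups, and the Frobenius eigenvalues may have multiplicative
relations of length six and more.

In the Lean statement `W` is `H_1(A, ℚ)`, `T` the tangent space at the origin and `per : W → T` the
inclusion, `ω₀` is the form given by a polarization; `V` is the rational Tate module with the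
comparison map `comp : W → V`, the action `ρ` of the Galois group and the Weil pairing `ω`; `χ` is
the cyclotomic character and `γ` the Frobenius element at `v`.  The hypotheses `hss` and `hF` are the
theorems of Faltings.
-/

namespace Pool.Agent.Results.MP_b8862a_ag.ZFourTermMumfordTate

open Pool.Agent.H204R3.GP Pool.Agent.H204R3.SP Pool.Agent.W516.FT

/-- The Mumford-Tate conjecture, if all endomorphisms are symmetric with respect to the Rosati
involution and one element of the Galois group has distinct eigenvalues without nontrivial
multiplicative relations of length four. -/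
theorem result (ℓ : ℕ) [Fact ℓ.Prime]
    -- the complex torus `A(ℂ)` with a polarization
    {W T : Type} [AddCommGroup W] [Module ℚ W] [AddCommGroup T] [Module ℂ T] (per : W →+ T)
    (ω₀ : W →ₗ[ℚ] W →ₗ[ℚ] ℚ) (hω₀ : IsHodgeBilinear per ω₀) (hR : RosatiTrivial per ω₀)
    -- the Tate module
    {V : Type} [AddCommGroup V] [Module ℚ_[ℓ] V] [FiniteDimensional ℚ_[ℓ] V] (comp : W →+ V)
    (hspan : Submodule.span ℚ_[ℓ] (Set.range comp) = ⊤)
    {Γ : Type} [Group Γ] (ρ : Representation ℚ_[ℓ] Γ V) (χ : Γ →* ℚ_[ℓ])
    (ω : V →ₗ[ℚ_[ℓ]] V →ₗ[ℚ_[ℓ]] ℚ_[ℓ]) (halt : ∀ v, ω v v = 0)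
    (hnondeg : ∀ u, (∀ v, ω v u = 0) → u = 0)
    (hω : ∀ s u v, ω (ρ s u) (ρ s v) = χ s * ω u v)
    (hωω : ∀ x y, ω (comp x) (comp y) = ((ω₀ x y : ℚ) : ℚ_[ℓ]))
    (hss : FiniteIndexSemisimple ρ) (hF : FaltingsEnd per comp ρ)
    (γ : Γ) (q : ℕ) (hχ : χ γ = q) (P : Polynomial ℚ) (hP : P.Separable)
    (hγ : (ρ γ).charpoly = P.map (algebraMap ℚ ℚ_[ℓ]))
    (hfour : OnlyTrivialRelationsOfLengthFour P q) :
    MumfordTateStrong per comp ρ χ := by
  have hss' : ∀ Δ : Subgroup Γ, Δ.FiniteIndex → SemiUnder (ρ '' (Δ : Set Γ)) := by
    intro Δ hΔ U hU
    obtain ⟨U', h1, h2⟩ := hss Δ hΔ U (fun s hs u hu => hU _ ⟨s, hs, rfl⟩ u hu)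
    refine ⟨U', ?_, h2⟩
    rintro _ ⟨s, hs, rfl⟩ u hu
    exact h1 s hs u hu
  have hnd' : ∀ u, (∀ v, ω u v = 0) → u = 0 := by
    intro u hu
    apply hnondeg
    intro v
    have h1 := halt (u + v)
    simp only [map_add, LinearMap.add_apply, halt, hu, zero_add, add_zero] at h1
    exact h1
  exact mumfordTate_of per comp ρ χ ω hnd' hω ω₀ hω₀ hωω hF fun m φ hφ => tate_of_four ρ χ ω halt
    hnondeg hω hss' γ hχ hP hγ hfour (no_symmetric per comp hspan ρ χ ω halt hnd' hω ω₀ hωω hF hR _)
    φ hφ

end Pool.Agent.Results.MP_b8862a_ag.ZFourTermMumfordTate
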